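import Pool.Agent.W84.G.Defs2

/-!
Project G4 (helper84), task G4-PATH: the path lemma in a general quadratic order.
-/

set_option autoImplicit false

namespace Pool.Agent.W349.G

open Pool.Agent.W78.GA (Qd nm prim gl dt ip)
open Pool.Agent.W84.G

/-- Jacobi symbols depend on the class modulo `4 D` -/
lemma jac_congr {D : ℤ} {Q m m' : ℕ} (hQ : 4 * D ∣ (Q : ℤ)) (hm : Odd m) (hm' : Odd m')
    (h : (Q : ℤ) ∣ (m : ℤ) - m') : jacobiSym D m = jacobiSym D m' := by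
  have h4 : (4 * D) ∣ (m : ℤ) - m' := hQ.trans h
  have h5 : m % (4 * D.natAbs) = m' % (4 * D.natAbs) := by
    have h6 : ((4 * D.natAbs : ℕ) : ℤ) ∣ (m : ℤ) - m' := by
      push_cast
      have : |4 * D| ∣ (m : ℤ) - m' := (abs_dvd _ _).2 h4
      rwa [abs_mul, abs_of_pos (by norm_num : (0 : ℤ) < 4)] at this
    have h7 : m' ≡ m [MOD (4 * D.natAbs)] := by
      rw [Nat.modEq_iff_dvd]
      exact h6
    exact h7.symm
  rw [jacobiSym.mod_right _ hm, h5, ← jacobiSym.mod_right _ hm']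

/-- a number with `q ∣ m x - 1` is odd, if `q` is even -/
lemma odd_of {q : ℤ} (h2 : (2 : ℤ) ∣ q) {m : ℕ} {x : ℤ} (h : q ∣ (m : ℤ) * x - 1) : Odd m := by
  by_contra hne
  rw [Nat.not_odd_iff_even] at hne
  obtain ⟨k, hk⟩ := hne
  obtain ⟨l, hl⟩ := h2.trans h
  have : (m : ℤ) = k + k := by exact_mod_cast hk
  rw [this] at hl
  have h3 : (2 : ℤ) * (k * x - l) = 1 := by linarith
  have h4 : (2 : ℤ) ∣ 1 := Dvd.intro _ h3
  omega

lemma cop_of {q : ℤ} {m x : ℤ} (h : q ∣ m * x - 1) : IsCoprime x q := by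
  obtain ⟨k, hk⟩ := h
  exact ⟨m, -k, by linear_combination hk⟩

/-- the path lemma -/
theorem pathg (t c : ℤ) : S_PATHG t c := by
  intro q T x y hq1 h4D hx hy hcx hcy hd hdT
  obtain ⟨x1, x2⟩ := x
  obtain ⟨y1, y2⟩ := y
  obtain ⟨hx2, mx, hjx, hmx⟩ := hcx
  obtain ⟨hy2, my, hjy, hmy⟩ := hcy
  simp only at hx2 hmx hy2 hmy
  have hdt : dt (⟨x1, x2⟩ : Qd t c) ⟨y1, y2⟩ = x1 * y2 - x2 * y1 := rfl
  rw [hdt] at hd hdT
  set D : ℤ := t ^ 2 - 4 * c with hD
  set d : ℤ := x1 * y2 - x2 * y1 with hdd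
  have h2q : (2 : ℤ) ∣ (q : ℤ) := by
    have : (2 : ℤ) ∣ 4 * D := ⟨2 * D, by ring⟩
    exact this.trans h4D
  have cx : IsCoprime x1 q := cop_of hmx
  have cy : IsCoprime y1 q := cop_of hmy
  have ox : Odd mx := odd_of h2q hmx
  have oy : Odd my := odd_of h2q hmy
  have hcop : IsCoprime x1 x2 := Int.isCoprime_iff_gcd_eq_one.2 hx
  have hcop' : IsCoprime y1 y2 := Int.isCoprime_iff_gcd_eq_one.2 hy
  -- (a)
  obtain ⟨p1, p2, hp12, hpq⟩ : ∃ p1 p2 : ℤ, p1 * x2 - p2 * x1 = 1 ∧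
      (q : ℤ) ∣ p1 * x1 + t * p2 * x1 + c * p2 * x2 := by
    obtain ⟨A, B, hAB⟩ := hcop
    obtain ⟨x2', hx2'⟩ := hx2
    have hN : IsCoprime (x1 ^ 2 + t * x1 * x2 + c * x2 ^ 2) (q : ℤ) := by
      have h1 : IsCoprime (x1 * x1) (q : ℤ) := IsCoprime.mul_left cx cx
      have h2 : x1 ^ 2 + t * x1 * x2 + c * x2 ^ 2 = x1 * x1 + q * (t * x1 * x2' + c * x2' * x2) := by
        rw [hx2']; ring
      rw [h2]
      exact h1.add_mul_left_left _
    obtain ⟨C, E, hCE⟩ := hN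
    set i0 : ℤ := B * x1 + t * (-A) * x1 + c * (-A) * x2 with hi0
    refine ⟨B + (-C * i0) * x1, -A + (-C * i0) * x2, by linear_combination hAB, i0 * E, ?_⟩
    have : (B + (-C * i0) * x1) * x1 + t * (-A + (-C * i0) * x2) * x1 +
        c * (-A + (-C * i0) * x2) * x2 = i0 - C * i0 * (x1 ^ 2 + t * x1 * x2 + c * x2 ^ 2) := by
      rw [hi0]; ring
    rw [this]
    linear_combination (-i0) * hCE
  -- (b)
  set R : ℤ := p1 * y2 - p2 * y1 with hR
  have e1 : R * x1 - y1 = d * p1 := by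
    rw [hR, hdd]; linear_combination y1 * hp12
  have e2 : R * x2 - y2 = d * p2 := by
    rw [hR, hdd]; linear_combination y2 * hp12
  have hqd : (q : ℤ) ∣ d := dvd_sub (hy2.mul_left _) (hx2.mul_right _)
  have cRq : IsCoprime R (q : ℤ) := by
    obtain ⟨d', hd'⟩ := hqd
    have h1 : R * x1 = y1 + q * (d' * p1) := by
      have : R * x1 = y1 + d * p1 := by linarith
      rw [this, hd']; ring
    have h2 : IsCoprime (R * x1) (q : ℤ) := by
      rw [h1]; exact cy.add_mul_left_left _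
    exact h2.of_mul_left_left
  have cRd : IsCoprime R d := by
    obtain ⟨A', B', hAB'⟩ := hcop'
    exact ⟨A' * x1 + B' * x2, -(A' * p1 + B' * p2),
      by linear_combination hAB' + A' * e1 + B' * e2⟩
  have cR : IsCoprime R ((q : ℤ) * d) := cRq.mul_right cRd
  -- (c)
  obtain ⟨d₀, hd₀⟩ := Int.eq_ofNat_of_zero_le hd.le
  have hd₀0 : d₀ ≠ 0 := by
    rintro rfl
    rw [hd₀] at hd
    simp at hd
  have hd₀T : d₀ ≤ T := by rw [hd₀] at hdT; exact_mod_cast hdT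
  have hQ0 : q * d₀ ≠ 0 := Nat.mul_ne_zero (by omega) hd₀0
  obtain ⟨r, hr1, hr2, hr3⟩ := Nat.forall_exists_prime_gt_and_zmodEq (q := q * d₀) (a := R)
    (q * T.factorial) hQ0 (by push_cast; rw [← hd₀]; exact cR)
  have hrR : (q : ℤ) * d ∣ (r : ℤ) - R := by
    have := Int.modEq_iff_dvd.1 hr3.symm
    push_cast at this
    rwa [← hd₀] at this
  have hrc : Nat.Coprime r (q * T.factorial) := by
    rw [Nat.Prime.coprime_iff_not_dvd hr2]
    intro h
    exact absurd (Nat.le_of_dvd (Nat.mul_pos (by omega) (Nat.factorial_pos _)) h) (by omega)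
  have hrq : (q : ℤ) ∣ (r : ℤ) - R := (Dvd.intro _ rfl).trans hrR
  have hro : Odd r := by
    refine hr2.odd_of_ne_two ?_
    rintro rfl
    have h1 : (2 : ℤ) ∣ R := by
      have : (2 : ℤ) ∣ ((2 : ℕ) : ℤ) - R := h2q.trans hrq
      have h3 : R = ((2 : ℕ) : ℤ) - (((2 : ℕ) : ℤ) - R) := by ring
      rw [h3]
      exact dvd_sub (by norm_num) this
    obtain ⟨u, w, huw⟩ := cRq
    have : (2 : ℤ) ∣ 1 := by
      rw [← huw]
      exact dvd_add (h1.mul_left _) (h2q.mul_left _)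
    omega
  have hjr : jacobiSym D r = 1 := by
    have h1 : (q : ℤ) ∣ ((r * my : ℕ) : ℤ) - mx := by
      refine cx.symm.dvd_of_dvd_mul_right ?_
      have h2 : (((r * my : ℕ) : ℤ) - mx) * x1 = my * x1 * (r - R) + my * (d * p1) +
          ((my : ℤ) * y1 - 1) - ((mx : ℤ) * x1 - 1) := by
        rw [← e1]; push_cast; ring
      rw [h2]
      exact dvd_sub (dvd_add (dvd_add (hrq.mul_left _) ((hqd.mul_right _).mul_left _)) hmy) hmx
    have h2 := jac_congr h4D (hro.mul oy) ox h1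
    haveI : NeZero r := ⟨hr2.ne_zero⟩
    haveI : NeZero my := ⟨oy.pos.ne'⟩
    rw [jacobiSym.mul_right, hjy, mul_one] at h2
    rw [h2, hjx]
  refine ⟨r, hrc, hjr, ?_⟩
  -- (d)
  intro p hp hpr hpn
  have hpR : (q : ℤ) * d ∣ (p : ℤ) - R := by
    have h1 : (q : ℤ) * d ∣ ((q * T.factorial : ℕ) : ℤ) := by
      rw [hd₀]
      have : q * d₀ ∣ q * T.factorial :=
        Nat.mul_dvd_mul_left q (Nat.dvd_factorial (Nat.pos_of_ne_zero hd₀0) hd₀T)
      exact_mod_cast this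
    have h2 : (p : ℤ) - R = ((p : ℤ) - r) + ((r : ℤ) - R) := by ring
    rw [h2]
    exact dvd_add (h1.trans hpr) hrR
  obtain ⟨s, hs⟩ := hpR
  have hps : (p : ℤ) = R + q * d * s := by linarith
  set v1 : ℤ := p1 + q * s * x1 with hv1
  set v2 : ℤ := p2 + q * s * x2 with hv2
  have f1 : v1 * x2 - v2 * x1 = 1 := by rw [hv1, hv2]; linear_combination hp12
  have f2 : v1 * y2 - v2 * y1 = p := by rw [hv1, hv2, hps, hR, hdd]; ring
  have f3 : d * v1 = p * x1 - y1 := by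
    rw [hv1, hps]; linear_combination -e1
  have f4 : d * v2 = p * x2 - y2 := by
    rw [hv2, hps]; linear_combination -e2
  have f5 : (q : ℤ) ∣ v1 * x1 + t * v2 * x1 + c * v2 * x2 := by
    have : v1 * x1 + t * v2 * x1 + c * v2 * x2 = (p1 * x1 + t * p2 * x1 + c * p2 * x2) +
        q * (s * (x1 ^ 2 + t * x1 * x2 + c * x2 ^ 2)) := by
      rw [hv1, hv2]; ring
    rw [this]
    exact dvd_add hpq (Dvd.intro _ rfl)
  have f6 : (q : ℤ) ∣ v1 + t * v2 := by
    refine cx.symm.dvd_of_dvd_mul_right ?_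
    have : (v1 + t * v2) * x1 = (v1 * x1 + t * v2 * x1 + c * v2 * x2) - c * v2 * x2 := by ring
    rw [this]
    exact dvd_sub f5 (hx2.mul_left _)
  have f7 : (q : ℤ) ∣ v1 * y1 + t * v2 * y1 + c * v2 * y2 := by
    have : v1 * y1 + t * v2 * y1 + c * v2 * y2 = (v1 + t * v2) * y1 + c * v2 * y2 := by ring
    rw [this]
    exact dvd_add (f6.mul_right _) (hy2.mul_left _)
  -- (e)
  obtain ⟨A', B', hAB'⟩ := hcop'
  have hk1 : v1 = (A' * v1 + B' * v2) * y1 + p * B' := by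
    linear_combination (-v1) * hAB' + B' * f2
  have hk2 : v2 = (A' * v1 + B' * v2) * y2 - p * A' := by
    linear_combination (-v2) * hAB' - A' * f2
  set k : ℤ := A' * v1 + B' * v2 with hk
  have hpN : (p : ℤ) ∣ y1 ^ 2 + t * y1 * y2 + c * y2 ^ 2 := by
    have h1 : (p : ℤ) ∣ ((nm (⟨y1, y2⟩ : Qd t c) : ℕ) : ℤ) := by exact_mod_cast hpn
    unfold nm at h1
    exact Int.dvd_natAbs.1 h1
  have g1 : (p : ℤ) ∣ v1 * y1 + t * v2 * y1 + c * v2 * y2 := by
    have : v1 * y1 + t * v2 * y1 + c * v2 * y2 = k * (y1 ^ 2 + t * y1 * y2 + c * y2 ^ 2) +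
        p * (B' * y1 - t * A' * y1 - c * A' * y2) := by
      linear_combination y1 * hk1 + (t * y1 + c * y2) * hk2
    rw [this]
    exact dvd_add (hpN.mul_left _) (Dvd.intro _ rfl)
  have g2 : (p : ℤ) ∣ v1 ^ 2 + t * v1 * v2 + c * v2 ^ 2 := by
    have : v1 ^ 2 + t * v1 * v2 + c * v2 ^ 2 = k * (v1 * y1 + t * v2 * y1 + c * v2 * y2) +
        p * (B' * v1) + k * t * (v1 * y2 - v2 * y1) - t * p * A' * v1 - c * p * A' * v2 := by
      linear_combination v1 * hk1 + (t * v1 + c * v2) * hk2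
    rw [this, f2]
    exact dvd_sub (dvd_sub (dvd_add (dvd_add (g1.mul_left _) (Dvd.intro _ rfl))
      (Dvd.intro_left _ rfl)) ⟨t * A' * v1, by ring⟩) ⟨c * A' * v2, by ring⟩
  obtain ⟨n₂, hn₂⟩ := g1
  have cpq : IsCoprime (p : ℤ) (q : ℤ) := by
    have h1 : (p : ℤ) = R + q * (d * s) := by rw [hps]; ring
    rw [h1]
    exact cRq.add_mul_left_left _
  refine ⟨⟨v1, v2⟩, n₂, f1, f2, ?_, f5, hn₂, ?_, ?_⟩
  · apply QuadraticAlgebra.ext
    · rw [hdt, QuadraticAlgebra.re_mul, QuadraticAlgebra.re_sub, QuadraticAlgebra.re_mul]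
      simp only [QuadraticAlgebra.re_intCast, QuadraticAlgebra.im_intCast,
        QuadraticAlgebra.re_natCast, QuadraticAlgebra.im_natCast, Int.cast_id]
      linear_combination f3
    · rw [hdt, QuadraticAlgebra.im_mul, QuadraticAlgebra.im_sub, QuadraticAlgebra.im_mul]
      simp only [QuadraticAlgebra.re_intCast, QuadraticAlgebra.im_intCast,
        QuadraticAlgebra.re_natCast, QuadraticAlgebra.im_natCast, Int.cast_id]
      linear_combination f4
  · refine cpq.symm.dvd_of_dvd_mul_left ?_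
    rw [← hn₂]; exact f7
  · have : (p : ℤ) ∣ ((nm (⟨v1, v2⟩ : Qd t c) : ℕ) : ℤ) := by
      unfold nm
      exact Int.dvd_natAbs.2 g2
    exact_mod_cast this

end Pool.Agent.W349.G
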