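import Pool.Agent.W84.G.Defs2
import Pool.Agent.W571.GT.Rep
import Pool.Agent.W578.GT.Equt
import Pool.Agent.W591.GT.Large
import Pool.Agent.W29.GT.Ve
import Pool.Agent.W583.GT.Sq

/-!
Project G4 (helper84), task G4-SQBT: few triples with a large square divisor, all nonsquare
discriminants.
-/

set_option autoImplicit false

namespace Pool.Agent.W349.G

open Finset Pool.Agent.W78.GT Pool.Agent.W583.GT
open Pool.Agent.W880.GM (tail_all tail_prime)
open Pool.Agent.W84.G (S_SQBT)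

variable {t c : ℤ}

/-! ### Roots modulo prime powers -/

lemma cnt {N : ℕ} (hN : 1 ≤ N) {D : ℤ} (hD : D ≠ 0) (x0 : ℤ) (S : Finset ℤ)
    (hS : ∀ y ∈ S, 0 ≤ y ∧ y < N ∧ (N : ℤ) ∣ D * (y - x0)) : S.card ≤ D.natAbs := by
  obtain ⟨m, n, hmn, h1, h2⟩ := Nat.exists_coprime N D.natAbs
  set g := Nat.gcd N D.natAbs with hg
  have hD0 : 0 < D.natAbs := Int.natAbs_pos.2 hD
  have hg0 : 0 < g := Nat.gcd_pos_of_pos_left _ hN
  have hm0 : 0 < m := by
    rcases Nat.eq_zero_or_pos m with h | h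
    · rw [h, zero_mul] at h1; omega
    · exact h
  have hgD : g ≤ D.natAbs := Nat.le_of_dvd hD0 (Nat.gcd_dvd_right _ _)
  have hdiv : ∀ y ∈ S, (m : ℤ) ∣ y - x0 := by
    intro y hy
    have h3 := Int.natCast_dvd.1 (hS y hy).2.2
    rw [Int.natAbs_mul, h2, h1] at h3
    have h4 : m * g ∣ (n * (y - x0).natAbs) * g := by
      have : n * g * (y - x0).natAbs = (n * (y - x0).natAbs) * g := by ring
      rwa [this] at h3
    have h5 := Nat.dvd_of_mul_dvd_mul_right hg0 h4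
    exact Int.natCast_dvd.2 (hmn.dvd_of_dvd_mul_left h5)
  have hmZ : (0 : ℤ) < m := by exact_mod_cast hm0
  refine le_trans ?_ hgD
  have h6 : S.card ≤ (Finset.Ico (0 : ℤ) g).card := by
    refine Finset.card_le_card_of_injOn (fun y => y / (m : ℤ)) ?_ ?_
    · intro y hy
      have hy' := hS y hy
      simp only [Finset.coe_Ico, Set.mem_Ico]
      refine ⟨Int.ediv_nonneg hy'.1 hmZ.le, ?_⟩
      apply Int.ediv_lt_of_lt_mul hmZ
      have : (N : ℤ) = g * m := by rw [mul_comm]; exact_mod_cast h1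
      linarith [hy'.2.1]
    · intro y hy y' hy' hyy
      simp only at hyy
      have h7 : (m : ℤ) ∣ y - y' := by
        have : y - y' = (y - x0) - (y' - x0) := by ring
        rw [this]; exact dvd_sub (hdiv y hy) (hdiv y' hy')
      have h8 : y % (m : ℤ) = y' % (m : ℤ) := (Int.emod_emod_of_dvd _ dvd_rfl).symm.trans
        (by rw [Int.emod_emod_of_dvd _ dvd_rfl]; exact Int.ModEq.symm (Int.modEq_iff_dvd.2 h7))
      rw [← Int.mul_ediv_add_emod y m, ← Int.mul_ediv_add_emod y' m, hyy, h8]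
  simpa using h6

/-- two roots modulo a prime power are congruent or conjugate, up to the discriminant -/
lemma two {l : ℕ} (hl : l.Prime) (a : ℕ) {x y : ℤ} (h1 : ((l : ℤ) ^ a) ∣ Qp t c x)
    (h2 : ((l : ℤ) ^ a) ∣ Qp t c y) :
    ((l : ℤ) ^ a) ∣ (t ^ 2 - 4 * c) * (x - y) ∨
      ((l : ℤ) ^ a) ∣ (t ^ 2 - 4 * c) * (x + y + t) := by
  have h3 : ((l : ℤ) ^ a) ∣ (x - y) * (x + y + t) := by
    have : (x - y) * (x + y + t) = Qp t c x - Qp t c y := by unfold Qp; ring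
    rw [this]; exact dvd_sub h1 h2
  have h4 : l ^ a ∣ (x - y).natAbs * (x + y + t).natAbs := by
    rw [← Int.natAbs_mul]
    apply Int.natCast_dvd.1
    push_cast
    exact h3
  obtain ⟨k1, k2, hk1, hk2, hk⟩ := (Nat.dvd_mul).1 h4
  obtain ⟨i, hi, rfl⟩ := (Nat.dvd_prime_pow hl).1 (Dvd.intro _ hk : k1 ∣ l ^ a)
  obtain ⟨i', hi', rfl⟩ := (Nat.dvd_prime_pow hl).1 (Dvd.intro_left _ hk : k2 ∣ l ^ a)
  have hii : i + i' = a := by
    rw [← pow_add] at hk
    exact Nat.pow_right_injective hl.two_le hk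
  have g1 : (l : ℤ) ^ i ∣ x - y := by
    have := Int.natCast_dvd.2 hk1
    push_cast at this
    exact this
  have g2 : (l : ℤ) ^ i' ∣ x + y + t := by
    have := Int.natCast_dvd.2 hk2
    push_cast at this
    exact this
  -- the smaller power divides the discriminant
  have key : ∀ j : ℕ, 2 * j ≤ a → (l : ℤ) ^ j ∣ x - y → (l : ℤ) ^ j ∣ x + y + t →
      (l : ℤ) ^ j ∣ t ^ 2 - 4 * c := by
    intro j hj e1 e2
    have e3 : (l : ℤ) ^ j ∣ 2 * x + t := by
      have : 2 * x + t = (x - y) + (x + y + t) := by ring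
      rw [this]; exact dvd_add e1 e2
    have e4 : (l : ℤ) ^ (2 * j) ∣ (2 * x + t) ^ 2 := by
      rw [mul_comm, pow_mul]; exact pow_dvd_pow_of_dvd e3 2
    have e5 : (l : ℤ) ^ (2 * j) ∣ 4 * Qp t c x :=
      ((pow_dvd_pow _ hj).trans h1).mul_left _
    have e6 : (l : ℤ) ^ (2 * j) ∣ t ^ 2 - 4 * c := by
      have : t ^ 2 - 4 * c = (2 * x + t) ^ 2 - 4 * Qp t c x := by unfold Qp; ring
      rw [this]; exact dvd_sub e4 e5
    exact (pow_dvd_pow _ (by omega)).trans e6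
  rcases le_total i i' with h | h
  · right
    have e := key i (by omega) g1 ((pow_dvd_pow _ h).trans g2)
    rw [← hii, pow_add]
    exact mul_dvd_mul e g2
  · left
    have e := key i' (by omega) ((pow_dvd_pow _ h).trans g1) g2
    rw [← hii, pow_add, mul_comm]
    exact mul_dvd_mul e g1

/-- the number of roots modulo `N = l ^ a m`, `l` prime to `m`, in a class modulo `m` -/
lemma fibre {l : ℕ} (hl : l.Prime) (hD : t ^ 2 - 4 * c ≠ 0) {a m : ℕ} (hm : ¬ l ∣ m)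
    (S : Finset ℤ) (hS : ∀ y ∈ S, 0 ≤ y ∧ y < (l ^ a * m : ℕ) ∧ ((l ^ a * m : ℕ) : ℤ) ∣ Qp t c y)
    (hc : ∀ x ∈ S, ∀ y ∈ S, (m : ℤ) ∣ x - y) : S.card ≤ 2 * (t ^ 2 - 4 * c).natAbs := by
  classical
  have hm0 : 0 < m := Nat.pos_of_ne_zero (by rintro rfl; exact hm (dvd_zero _))
  set N : ℕ := l ^ a * m with hN
  have hN0 : 1 ≤ N := Nat.mul_pos (pow_pos hl.pos _) hm0
  have hlN : ((l : ℤ) ^ a) ∣ (N : ℤ) := by
    rw [hN]; push_cast; exact Dvd.intro _ rfl
  have hcop : IsCoprime ((l : ℤ) ^ a) (m : ℤ) := by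
    apply IsCoprime.pow_left
    exact Nat.isCoprime_iff_coprime.2 ((Nat.Prime.coprime_iff_not_dvd hl).2 hm)
  have comb : ∀ z : ℤ, ((l : ℤ) ^ a) ∣ (t ^ 2 - 4 * c) * z → (m : ℤ) ∣ z →
      (N : ℤ) ∣ (t ^ 2 - 4 * c) * z := by
    intro z h1 h2
    rw [hN]; push_cast
    exact hcop.mul_dvd h1 (h2.mul_left _)
  rcases S.eq_empty_or_nonempty with h | ⟨x0, hx0⟩
  · rw [h]; simp
  set S1 := S.filter (fun y => (N : ℤ) ∣ (t ^ 2 - 4 * c) * (y - x0)) with hS1
  set S2 := S.filter (fun y => ¬ (N : ℤ) ∣ (t ^ 2 - 4 * c) * (y - x0)) with hS2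
  have hc1 : S1.card ≤ (t ^ 2 - 4 * c).natAbs := by
    refine cnt hN0 hD x0 S1 fun y hy => ?_
    rw [hS1, mem_filter] at hy
    exact ⟨(hS y hy.1).1, (hS y hy.1).2.1, hy.2⟩
  have hS2' : ∀ y ∈ S2, ((l : ℤ) ^ a) ∣ (t ^ 2 - 4 * c) * (x0 + y + t) := by
    intro y hy
    rw [hS2, mem_filter] at hy
    rcases two hl a (hlN.trans (hS x0 hx0).2.2) (hlN.trans (hS y hy.1).2.2) with h | h
    · exfalso
      apply hy.2
      apply comb
      · have : (t ^ 2 - 4 * c) * (y - x0) = -((t ^ 2 - 4 * c) * (x0 - y)) := by ring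
        rw [this]; exact (dvd_neg).2 h
      · exact hc y hy.1 x0 hx0
    · exact h
  have hc2 : S2.card ≤ (t ^ 2 - 4 * c).natAbs := by
    rcases S2.eq_empty_or_nonempty with h | ⟨y0, hy0⟩
    · rw [h]; simp
    refine cnt hN0 hD y0 S2 fun y hy => ?_
    have hy' := hy
    have hy0' := hy0
    rw [hS2, mem_filter] at hy' hy0'
    refine ⟨(hS y hy'.1).1, (hS y hy'.1).2.1, comb _ ?_ (hc y hy'.1 y0 hy0'.1)⟩
    have : (t ^ 2 - 4 * c) * (y - y0) = (t ^ 2 - 4 * c) * (x0 + y + t) -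
        (t ^ 2 - 4 * c) * (x0 + y0 + t) := by ring
    rw [this]
    exact dvd_sub (hS2' y hy) (hS2' y0 hy0)
  have hsub : S ⊆ S1 ∪ S2 := by
    intro y hy
    rw [mem_union, hS1, hS2, mem_filter, mem_filter]
    by_cases h : (N : ℤ) ∣ (t ^ 2 - 4 * c) * (y - x0)
    · exact Or.inl ⟨hy, h⟩
    · exact Or.inr ⟨hy, h⟩
  have := (card_le_card hsub).trans (card_union_le _ _)
  omega

/-- few roots `(d, r)` with `l ^ j ∣ d` -/
lemma vert {l : ℕ} (hl : l.Prime) (hD : t ^ 2 - 4 * c ≠ 0) (j : ℕ) (X : ℝ) :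
    ((rts t c X).filter (fun e => l ^ j ∣ e.1)).card ≤
      2 * (t ^ 2 - 4 * c).natAbs * (rts t c (X / (l : ℝ) ^ j)).card := by
  classical
  have hlj : 0 < l ^ j := pow_pos hl.pos _
  have hljR : (0 : ℝ) < (l : ℝ) ^ j := by exact_mod_cast hlj
  set f : ℕ × ℤ → ℕ × ℤ := fun e => (e.1 / l ^ j, e.2 % ((e.1 / l ^ j : ℕ) : ℤ)) with hf
  set W := (rts t c X).filter (fun e => l ^ j ∣ e.1) with hW
  have himg : W.image f ⊆ rts t c (X / (l : ℝ) ^ j) := by
    intro v hv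
    obtain ⟨e, he, rfl⟩ := mem_image.1 hv
    rw [hW, mem_filter] at he
    obtain ⟨he1, m, hm⟩ := he
    obtain ⟨h1, h2, h3, h4, h5⟩ := mem_rts.1 he1
    have hdm : e.1 / l ^ j = m := by rw [hm]; exact Nat.mul_div_cancel_left _ hlj
    have hm1 : 1 ≤ m := by
      rcases Nat.eq_zero_or_pos m with h | h
      · rw [h, mul_zero] at hm; omega
      · exact h
    rw [hf]
    simp only [hdm]
    refine root_mem hm1 ?_ ?_
    · rw [le_div_iff₀ hljR]
      rw [hm] at h2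
      push_cast at h2
      linarith
    · refine Dvd.dvd.trans ?_ h3
      rw [hm]; push_cast; exact Dvd.intro_left _ rfl
  refine (Finset.card_le_mul_card_image (f := f) W (2 * (t ^ 2 - 4 * c).natAbs) ?_).trans
    (Nat.mul_le_mul_left _ (card_le_card himg))
  intro v hv
  obtain ⟨e, he, rfl⟩ := mem_image.1 hv
  rw [hW, mem_filter] at he
  obtain ⟨he1, m, hm⟩ := he
  have hdm : e.1 / l ^ j = m := by rw [hm]; exact Nat.mul_div_cancel_left _ hlj
  have he1' := mem_rts.1 he1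
  have hd0 : e.1 ≠ 0 := by omega
  obtain ⟨a, m', hm', ham⟩ := Nat.exists_eq_pow_mul_and_not_dvd hd0 l hl.ne_one
  have hm'm : m' ∣ m := by
    have h1 : m' ∣ l ^ j * m := by rw [← hm, ham]; exact Dvd.intro_left _ rfl
    have h2 : Nat.Coprime m' (l ^ j) :=
      (Nat.Coprime.pow_left j ((Nat.Prime.coprime_iff_not_dvd hl).2 hm')).symm
    exact h2.dvd_of_dvd_mul_left h1
  -- all members of the fibre have the same first coordinate
  have hfst : ∀ e' ∈ W.filter (fun x => f x = f e), e'.1 = e.1 ∧ (m' : ℤ) ∣ e'.2 - e.2 := by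
    intro e' he'
    rw [mem_filter, hW, mem_filter] at he'
    obtain ⟨⟨h1, m₂, hm₂⟩, h2⟩ := he'
    have hdm2 : e'.1 / l ^ j = m₂ := by rw [hm₂]; exact Nat.mul_div_cancel_left _ hlj
    rw [hf] at h2
    simp only [Prod.mk.injEq, hdm, hdm2] at h2
    obtain ⟨h3, h4⟩ := h2
    refine ⟨by rw [hm, hm₂, h3], ?_⟩
    rw [h3] at h4
    have h5 : (m : ℤ) ∣ e'.2 - e.2 := Int.modEq_iff_dvd.1 (Int.ModEq.symm h4)
    exact (Int.natCast_dvd_natCast.2 hm'm).trans h5
  set S : Finset ℤ := (W.filter (fun x => f x = f e)).image Prod.snd with hS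
  have hcard : (W.filter (fun x => f x = f e)).card = S.card := by
    rw [hS]
    symm
    apply Finset.card_image_of_injOn
    intro x hx y hy hxy
    exact Prod.ext ((hfst x hx).1.trans (hfst y hy).1.symm) hxy
  rw [hcard]
  refine fibre hl hD (a := a) hm' S ?_ ?_
  · intro y hy
    obtain ⟨e', he', rfl⟩ := mem_image.1 hy
    have h1 := (hfst e' he').1
    rw [mem_filter, hW, mem_filter] at he'
    obtain ⟨g1, g2, g3, g4, g5⟩ := mem_rts.1 he'.1.1
    rw [h1] at g3 g5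
    rw [← ham]
    exact ⟨g4, g5, g3⟩
  · intro x hx y hy
    obtain ⟨x', hx', rfl⟩ := mem_image.1 hx
    obtain ⟨y', hy', rfl⟩ := mem_image.1 hy
    have : x'.2 - y'.2 = (x'.2 - e.2) - (y'.2 - e.2) := by ring
    rw [this]
    exact dvd_sub (hfst x' hx').2 (hfst y' hy').2

/-! ### Large primes -/

/-- squares of primes `> z`, `z ≥ 2 |D|` (copy of `W583.GT.sqt_of`) -/
theorem sqt2 (hD : t ^ 2 - 4 * c ≠ 0) (hequt : S_EQUT t c) (hlarge : S_LARGET t c) :
    ∃ C : ℝ, 0 < C ∧ ∀ z : ℕ, 2 ≤ z → 2 * (t ^ 2 - 4 * c).natAbs ≤ z → ∃ X₀ : ℝ, ∀ X : ℝ,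
    X₀ ≤ X → (open scoped Classical in
    (((tri t c X X).filter (fun e => ∃ l : ℕ, l.Prime ∧ z < l ∧ l ^ 2 ∣ NT e)).card : ℝ)) ≤
    C / z * X := by
  classical
  obtain ⟨C, hC, hE⟩ := hequt
  obtain ⟨A, hL⟩ := hlarge
  refine ⟨6 * C + 1, by positivity, fun z hz hzD => ?_⟩
  have hspl : ∀ l : ℕ, l.Prime → z < l → ∀ n : ℤ, (l : ℤ) ^ 2 ∣ Qp t c n → Spl t c l := by
    intro l hl hzl n hn
    refine ⟨hl, ?_, n, (dvd_pow_self _ two_ne_zero).trans hn⟩
    intro h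
    have h1 : l ∣ (2 * (t ^ 2 - 4 * c)).natAbs := Int.natCast_dvd.1 h
    have h2 : 0 < (2 * (t ^ 2 - 4 * c)).natAbs := Int.natAbs_pos.2 (by
      intro h0; exact hD (by omega))
    have h3 := Nat.le_of_dvd h2 h1
    rw [Int.natAbs_mul] at h3
    have h4 : (2 : ℤ).natAbs = 2 := rfl
    rw [h4] at h3
    omega
  have hzR : (2 : ℝ) ≤ z := by exact_mod_cast hz
  obtain ⟨X₁, hX₁⟩ := hL (1 / (z : ℝ)) (by positivity)
  obtain ⟨X₂, hX₂⟩ := hE (2 * A)
  refine ⟨max (Real.exp 1) (max X₁ X₂), fun X hX => ?_⟩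
  have hXe : Real.exp 1 ≤ X := (le_max_left _ _).trans hX
  have hXX1 : X₁ ≤ X := ((le_max_left _ _).trans (le_max_right _ _)).trans hX
  have hXX2 : X₂ ≤ X := ((le_max_right _ _).trans (le_max_right _ _)).trans hX
  have hX1 : 1 ≤ X := by
    have := Real.add_one_le_exp (1 : ℝ)
    linarith
  have hlog : 1 ≤ Real.log X := by
    rw [Real.le_log_iff_exp_le (by linarith)]
    exact hXe
  have hlogpow : ∀ k : ℕ, 1 ≤ Real.log X ^ k := fun k => one_le_pow₀ hlog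
  set N : ℕ := ⌊Real.log X ^ A⌋₊ with hN
  set L : Finset ℕ := (Ioc z N).filter (fun l => Spl t c l) with hLdef
  set BL := (tri t c X X).filter (fun e => ∃ l : ℕ, l.Prime ∧ Real.log X ^ A < (l : ℝ) ∧
      l ^ 2 ∣ NT e) with hBL
  set B : ℕ → Finset Tr := fun l => (tri t c X X).filter (fun e => l ^ 2 ∣ NT e) with hB
  have hsub : (tri t c X X).filter (fun e => ∃ l : ℕ, l.Prime ∧ z < l ∧ l ^ 2 ∣ NT e) ⊆
      BL ∪ L.biUnion B := by
    intro e he
    rw [mem_filter] at he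
    obtain ⟨he1, l, hl, hzl, hle⟩ := he
    rw [mem_union]
    by_cases hlg : Real.log X ^ A < (l : ℝ)
    · left
      rw [hBL, mem_filter]
      exact ⟨he1, l, hl, hlg, hle⟩
    · right
      rw [mem_biUnion]
      refine ⟨l, ?_, ?_⟩
      · rw [hLdef, mem_filter, mem_Ioc]
        refine ⟨⟨hzl, Nat.le_floor (not_lt.1 hlg)⟩, hspl l hl hzl e.2.1 ?_⟩
        have h5 := (mem_tri.1 he1).2.2.2.2.1
        rw [← h5]
        unfold NT at hle
        exact_mod_cast hle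
      · rw [hB, mem_filter]
        exact ⟨he1, hle⟩
  have hcardBL : (BL.card : ℝ) ≤ 1 / (z : ℝ) * X := hX₁ X hXX1
  have hcardB : ∀ l ∈ L, ((B l).card : ℝ) ≤ 6 * C * X * (1 / (l : ℝ) ^ 2) := by
    intro l hl
    rw [hLdef, mem_filter, mem_Ioc] at hl
    obtain ⟨⟨hzl, hlN⟩, hls⟩ := hl
    have hlp := hls.1
    have hlpos : (0 : ℝ) < l := by exact_mod_cast hlp.pos
    have hlR : (l : ℝ) ≤ Real.log X ^ A :=
      (Nat.cast_le.2 hlN).trans (Nat.floor_le (by positivity))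
    have hB1 : ∀ f ∈ B l, (((tri t c X X).filter (fun e => Cg (l ^ 2) e f)).card : ℝ) ≤
        C * X * (Nat.totient (l ^ 2) : ℝ) / ((l ^ 2 : ℕ) : ℝ) ^ 3 := by
      intro f _
      refine hX₂ X X X (l ^ 2) f hXX2 hX1 hX1 (by rw [pow_two]) ?_ ?_ ?_ ?_ ?_
      · have := hlogpow (2 * A); nlinarith
      · have := hlogpow (2 * A); nlinarith
      · exact Nat.one_le_pow _ _ hlp.pos
      · push_cast
        rw [mul_comm 2 A, pow_mul]
        exact pow_le_pow_left₀ hlpos.le hlR 2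
      · intro p hp hpl
        rw [(Nat.prime_dvd_prime_iff_eq hp hlp).1 (hp.dvd_of_dvd_pow hpl)]
        exact hls
    have h1 := (occ_sq hls).card_le (B l) (tri t c X X) (by
      intro e he
      rw [hB, mem_filter] at he
      exact he.1) (by
      intro e he
      rw [hB, mem_filter] at he
      refine ⟨toZ_mem he.1, ?_⟩
      have h2 := he.2
      unfold NT at h2
      show ((l ^ 2 : ℕ) : ℤ) ∣ (e.1 : ℤ) * (e.2.2 : ℤ)
      exact_mod_cast h2) _ (by positivity) hB1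
    refine h1.trans ?_
    have h2 := wt_sq hlp.pos 6
    unfold wt at h2
    calc ((6 * l ^ 2 : ℕ) : ℝ) * (C * X * (Nat.totient (l ^ 2) : ℝ) / ((l ^ 2 : ℕ) : ℝ) ^ 3)
        = C * X * (((6 * l ^ 2 : ℕ) : ℝ) * (Nat.totient (l ^ 2) : ℝ) / ((l ^ 2 : ℕ) : ℝ) ^ 3) := by
          ring
      _ ≤ C * X * ((6 : ℕ) / (l : ℝ) ^ 2) := mul_le_mul_of_nonneg_left h2 (by positivity)
      _ = 6 * C * X * (1 / (l : ℝ) ^ 2) := by push_cast; ring
  have hsum : ∑ l ∈ L, 1 / (l : ℝ) ^ 2 ≤ 1 / (z : ℝ) := by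
    refine tail_all z (by omega) L fun l hl => ?_
    rw [hLdef, mem_filter, mem_Ioc] at hl
    exact hl.1.1
  have hcard := (Finset.card_le_card hsub).trans (card_union_le _ _)
  have hcard2 : (((tri t c X X).filter
      (fun e => ∃ l : ℕ, l.Prime ∧ z < l ∧ l ^ 2 ∣ NT e)).card : ℝ) ≤
      (BL.card : ℝ) + ((L.biUnion B).card : ℝ) := by exact_mod_cast hcard
  have hcard3 : ((L.biUnion B).card : ℝ) ≤ ∑ l ∈ L, ((B l).card : ℝ) := by
    exact_mod_cast card_biUnion_le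
  refine hcard2.trans ?_
  calc (BL.card : ℝ) + ((L.biUnion B).card : ℝ)
      ≤ 1 / (z : ℝ) * X + ∑ l ∈ L, 6 * C * X * (1 / (l : ℝ) ^ 2) :=
        add_le_add hcardBL (hcard3.trans (sum_le_sum hcardB))
    _ = 1 / (z : ℝ) * X + 6 * C * X * ∑ l ∈ L, (1 / (l : ℝ) ^ 2) := by rw [mul_sum]
    _ ≤ 1 / (z : ℝ) * X + 6 * C * X * (1 / (z : ℝ)) := by
        have : 0 ≤ 6 * C * X := by positivity
        have := mul_le_mul_of_nonneg_left hsum this
        linarith
    _ = (6 * C + 1) / z * X := by ring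

/-! ### Numbers with small primes only -/

/-- a number without prime factors `> z` and without prime powers `l ^ (j+1)` is at most `z! ^ j` -/
lemma smooth {z j k : ℕ} (h1 : ∀ l : ℕ, l.Prime → l ∣ k → l ≤ z)
    (h2 : ∀ l : ℕ, l.Prime → ¬ l ^ (j + 1) ∣ k) : k ≤ z.factorial ^ j := by
  refine Nat.le_of_dvd (pow_pos (Nat.factorial_pos _) _) ?_
  rw [Nat.dvd_iff_prime_pow_dvd_dvd]
  intro p i hp hpi
  rcases Nat.eq_zero_or_pos i with rfl | hi
  · simp
  have hij : i ≤ j := by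
    by_contra hcon
    exact h2 p hp ((pow_dvd_pow p (by omega)).trans hpi)
  have hpz : p ∣ z.factorial :=
    Nat.dvd_factorial hp.pos (h1 p hp ((dvd_pow_self p (by omega)).trans hpi))
  exact (pow_dvd_pow p hij).trans (pow_dvd_pow_of_dvd hpz j)

/-- half of a prime power divides one of the factors -/
lemma half {l a m n : ℕ} (hl : l.Prime) (h : l ^ (2 * a) ∣ m * n) : l ^ a ∣ m ∨ l ^ a ∣ n := by
  obtain ⟨k1, k2, hk1, hk2, hk⟩ := (Nat.dvd_mul).1 h
  obtain ⟨i, hi, rfl⟩ := (Nat.dvd_prime_pow hl).1 (Dvd.intro _ hk : k1 ∣ l ^ (2 * a))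
  obtain ⟨i', hi', rfl⟩ := (Nat.dvd_prime_pow hl).1 (Dvd.intro_left _ hk : k2 ∣ l ^ (2 * a))
  have hii : i + i' = 2 * a := by
    rw [← pow_add] at hk
    exact Nat.pow_right_injective hl.two_le hk
  rcases le_total a i with h3 | h3
  · exact Or.inl ((pow_dvd_pow l h3).trans hk1)
  · exact Or.inr ((pow_dvd_pow l (by omega)).trans hk2)

/-- few triples with a large square divisor -/
theorem sqbt (hns : ¬ IsSquare (t ^ 2 - 4 * c)) : S_SQBT t c := by
  classical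
  have hrep := Pool.Agent.W571.GT.rep hns
  have hequt : S_EQUT t c := Pool.Agent.W578.GT.equt_of hrep
  have hlarge := Pool.Agent.W591.GT.larget hns
  have hroot : S_ROOT t c := Pool.Agent.W29.GT.root_of hrep
  have hvet : S_VET t c := Pool.Agent.W29.GT.vet_of hroot
  have hD : t ^ 2 - 4 * c ≠ 0 := by
    intro h; apply hns; rw [h]; exact ⟨0, by norm_num⟩
  obtain ⟨C₁, hC₁, hsq⟩ := sqt2 hD hequt hlarge
  obtain ⟨Cr, hCr, hr⟩ := hroot
  obtain ⟨Cv, hCv, hv⟩ := hvet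
  intro δ hδ
  set K : ℝ := ((2 * (t ^ 2 - 4 * c).natAbs : ℕ) : ℝ) with hK
  have hK0 : 0 ≤ K := by rw [hK]; positivity
  -- the choice of `z`
  obtain ⟨z, hz⟩ : ∃ z : ℕ, 2 ≤ z ∧ 2 * (t ^ 2 - 4 * c).natAbs ≤ z ∧ C₁ / z ≤ δ / 2 := by
    obtain ⟨z₀, hz₀⟩ := exists_nat_ge (2 * C₁ / δ)
    refine ⟨max 2 (max (2 * (t ^ 2 - 4 * c).natAbs) z₀), le_max_left _ _,
      (le_max_left _ _).trans (le_max_right _ _), ?_⟩
    have h1 : (z₀ : ℝ) ≤ (max 2 (max (2 * (t ^ 2 - 4 * c).natAbs) z₀) : ℕ) := by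
      exact_mod_cast (le_max_right _ _).trans (le_max_right _ _)
    have h2 : (0 : ℝ) < (max 2 (max (2 * (t ^ 2 - 4 * c).natAbs) z₀) : ℕ) := by
      have : (2 : ℕ) ≤ max 2 (max (2 * (t ^ 2 - 4 * c).natAbs) z₀) := le_max_left _ _
      have h3 : (0 : ℕ) < max 2 (max (2 * (t ^ 2 - 4 * c).natAbs) z₀) := by omega
      exact_mod_cast h3
    rw [div_le_iff₀ h2]
    rw [div_le_iff₀ hδ] at hz₀
    nlinarith
  obtain ⟨hz2, hzD, hzδ⟩ := hz
  obtain ⟨X₁, hX₁⟩ := hsq z hz2 hzD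
  -- the choice of `κ` and `j`
  set κ : ℝ := min 1 (δ / (4 * Cv)) with hκ
  have hκ0 : 0 < κ := lt_min one_pos (by positivity)
  have hκ1 : κ ≤ 1 := min_le_left _ _
  have hκδ : Cv * κ ≤ δ / 4 := by
    have h1 : κ ≤ δ / (4 * Cv) := min_le_right _ _
    calc Cv * κ ≤ Cv * (δ / (4 * Cv)) := mul_le_mul_of_nonneg_left h1 hCv.le
      _ = δ / 4 := by field_simp
  obtain ⟨j, hj⟩ : ∃ j : ℕ, Cv * (((z : ℝ) + 1) * K * Cr / 2 ^ j) / κ ≤ δ / 4 := by
    obtain ⟨j, hj⟩ := pow_unbounded_of_one_lt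
      (Cv * (((z : ℝ) + 1) * K * Cr) / κ / (δ / 4)) (one_lt_two : (1 : ℝ) < 2)
    refine ⟨j, ?_⟩
    have h2 : (0 : ℝ) < 2 ^ j := by positivity
    rw [div_lt_iff₀ (by positivity)] at hj
    have e : Cv * (((z : ℝ) + 1) * K * Cr / 2 ^ j) / κ =
        Cv * (((z : ℝ) + 1) * K * Cr) / κ / 2 ^ j := by
      field_simp
    rw [e, div_le_iff₀ h2]
    linarith
  refine ⟨z.factorial ^ j, max 1 X₁, fun X hX => ?_⟩
  have hX1 : 1 ≤ X := (le_max_left _ _).trans hX
  have hXX1 : X₁ ≤ X := (le_max_right _ _).trans hX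
  set V : Finset (ℕ × ℤ) := ((range (z + 1)).filter Nat.Prime).biUnion
    (fun l => (rts t c X).filter (fun e => l ^ j ∣ e.1)) with hV
  have hVsub : V ⊆ rts t c X := by
    intro v hv'
    rw [hV, mem_biUnion] at hv'
    obtain ⟨l, -, h⟩ := hv'
    exact (mem_filter.1 h).1
  have hVc : (V.card : ℝ) ≤ ((z : ℝ) + 1) * K * Cr / 2 ^ j * X := by
    have h1 : (V.card : ℝ) ≤ ∑ l ∈ (range (z + 1)).filter Nat.Prime,
        (((rts t c X).filter (fun e => l ^ j ∣ e.1)).card : ℝ) := by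
      exact_mod_cast card_biUnion_le
    refine h1.trans ?_
    have h2 : ∀ l ∈ (range (z + 1)).filter Nat.Prime,
        (((rts t c X).filter (fun e => l ^ j ∣ e.1)).card : ℝ) ≤ K * Cr / 2 ^ j * X := by
      intro l hl
      rw [mem_filter] at hl
      have h3 : (((rts t c X).filter (fun e => l ^ j ∣ e.1)).card : ℝ) ≤
          K * ((rts t c (X / (l : ℝ) ^ j)).card : ℝ) := by
        rw [hK]
        exact_mod_cast vert hl.2 hD j X
      have hl2 : (2 : ℝ) ≤ l := by exact_mod_cast hl.2.two_le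
      have h4 := hr (X / (l : ℝ) ^ j) (by positivity)
      refine h3.trans ((mul_le_mul_of_nonneg_left h4 hK0).trans ?_)
      have h5 : (2 : ℝ) ^ j ≤ (l : ℝ) ^ j := pow_le_pow_left₀ (by norm_num) hl2 j
      have h6 : X / (l : ℝ) ^ j ≤ X / 2 ^ j :=
        div_le_div_of_nonneg_left (by linarith) (by positivity) h5
      calc K * (Cr * (X / (l : ℝ) ^ j)) ≤ K * (Cr * (X / 2 ^ j)) := by gcongr
        _ = K * Cr / 2 ^ j * X := by ring
    refine (sum_le_sum h2).trans ?_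
    rw [sum_const, nsmul_eq_mul]
    have h3 : (((range (z + 1)).filter Nat.Prime).card : ℝ) ≤ (z : ℝ) + 1 := by
      have := card_filter_le (range (z + 1)) Nat.Prime
      rw [card_range] at this
      exact_mod_cast this
    calc (((range (z + 1)).filter Nat.Prime).card : ℝ) * (K * Cr / 2 ^ j * X)
        ≤ ((z : ℝ) + 1) * (K * Cr / 2 ^ j * X) :=
          mul_le_mul_of_nonneg_right h3 (by positivity)
      _ = _ := by ring
  have hsub : (tri t c X X).filter (fun e => ∃ k : ℕ, z.factorial ^ j < k ∧ k ^ 2 ∣ NT e) ⊆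
      (tri t c X X).filter (fun e => ∃ l : ℕ, l.Prime ∧ z < l ∧ l ^ 2 ∣ NT e) ∪
      (tri t c X X).filter (fun e => vx e ∈ V ∨ vy e ∈ V) := by
    intro e he
    rw [mem_filter] at he
    obtain ⟨he1, k, hk, hke⟩ := he
    rw [mem_union, mem_filter, mem_filter]
    by_cases h1 : ∀ l : ℕ, l.Prime → l ∣ k → l ≤ z
    · right
      have h2 : ∃ l : ℕ, l.Prime ∧ l ^ (j + 1) ∣ k := by
        by_contra hcon
        push Not at hcon
        exact absurd (smooth h1 hcon) (by omega)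
      obtain ⟨l, hl, hlk⟩ := h2
      have hlz : l ≤ z := h1 l hl ((dvd_pow_self l (by omega)).trans hlk)
      have h3 : l ^ (2 * j) ∣ e.1 * e.2.2 := by
        have h4 : (l ^ j) ^ 2 ∣ k ^ 2 :=
          pow_dvd_pow_of_dvd ((pow_dvd_pow l (by omega)).trans hlk) 2
        rw [← pow_mul, mul_comm] at h4
        exact h4.trans hke
      refine ⟨he1, ?_⟩
      have hlm : l ∈ (range (z + 1)).filter Nat.Prime := by
        rw [mem_filter, mem_range]; exact ⟨by omega, hl⟩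
      rcases half hl h3 with h4 | h4
      · left
        rw [hV, mem_biUnion]
        exact ⟨l, hlm, mem_filter.2 ⟨vx_mem he1, h4⟩⟩
      · right
        rw [hV, mem_biUnion]
        exact ⟨l, hlm, mem_filter.2 ⟨vy_mem he1, h4⟩⟩
    · left
      push Not at h1
      obtain ⟨l, hl, hlk, hzl⟩ := h1
      exact ⟨he1, l, hl, hzl, (pow_dvd_pow_of_dvd hlk 2).trans hke⟩
  have hc1 := hX₁ X hXX1
  have hc2 := hv κ X V hκ0 hκ1 hX1 hVsub
  have hcard := (Finset.card_le_card hsub).trans (card_union_le _ _)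
  have hcard2 : (((tri t c X X).filter
      (fun e => ∃ k : ℕ, z.factorial ^ j < k ∧ k ^ 2 ∣ NT e)).card : ℝ) ≤
      (((tri t c X X).filter (fun e => ∃ l : ℕ, l.Prime ∧ z < l ∧ l ^ 2 ∣ NT e)).card : ℝ) +
      (((tri t c X X).filter (fun e => vx e ∈ V ∨ vy e ∈ V)).card : ℝ) := by
    exact_mod_cast hcard
  refine hcard2.trans ?_
  have h1 : C₁ / z * X ≤ δ / 2 * X := mul_le_mul_of_nonneg_right hzδ (by linarith)
  have h2 : Cv * (κ * X + (V.card : ℝ) / κ) ≤ δ / 4 * X + δ / 4 * X := by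
    have h3 : (V.card : ℝ) / κ ≤ ((z : ℝ) + 1) * K * Cr / 2 ^ j * X / κ :=
      div_le_div_of_nonneg_right hVc hκ0.le
    calc Cv * (κ * X + (V.card : ℝ) / κ)
        ≤ Cv * (κ * X + ((z : ℝ) + 1) * K * Cr / 2 ^ j * X / κ) := by gcongr
      _ = (Cv * κ) * X + (Cv * (((z : ℝ) + 1) * K * Cr / 2 ^ j) / κ) * X := by ring
      _ ≤ δ / 4 * X + δ / 4 * X := by
          have hX0 : 0 ≤ X := by linarith
          exact add_le_add (mul_le_mul_of_nonneg_right hκδ hX0)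
            (mul_le_mul_of_nonneg_right hj hX0)
  linarith

end Pool.Agent.W349.G
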